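import Pool.Agent.H8.RG.Conv

set_option autoImplicit false

/-!
# Piece Gp: powers of the Kähler form times a vector, and their derivations
-/

namespace Pool.Agent.H91.SX

open Pool.Agent.H61.YP Pool.Agent.H8.RG
open scoped BigOperators RealInnerProductSpace

variable {n : ℕ}

theorem Gp_none_some {q : ℕ} (v : Option (Fin q × Bool) → E n) (x : E n) :
    (fun a => Function.update v none x (some a)) = fun a => v (some a) := by
  funext a
  exact Function.update_of_ne (by simp) _ _

theorem Gp_some_some {q : ℕ} (v : Option (Fin q × Bool) → E n) (a : Fin q × Bool) (x : E n) :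
    (fun b => Function.update v (some a) x (some b)) =
      Function.update (fun b => v (some b)) a x := by
  funext b
  by_cases hab : b = a
  · subst hab
    rw [Function.update_self, Function.update_self]
  · rw [Function.update_of_ne hab, Function.update_of_ne (fun h => hab (Option.some_injective _ h))]

theorem Gp_some_none {q : ℕ} (v : Option (Fin q × Bool) → E n) (a : Fin q × Bool) (x : E n) :
    Function.update v (some a) x none = v none :=
  Function.update_of_ne (by simp) _ _

/-- the product of `⟪ν, v none⟫` and the power of the Kähler form as a multilinear map -/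
noncomputable def Gp_m (J : E n →ₗ[ℝ] E n) (ν : E n) (q : ℕ) :
    MultilinearMap ℝ (fun _ : Option (Fin q × Bool) => E n) ℝ :=
  MultilinearMap.mk' (fun v => ⟪ν, v none⟫ * Conv_m J q (fun a => v (some a)))
    (by
      rintro v (_ | a) x y
      · rw [Function.update_self, Function.update_self, Function.update_self, Gp_none_some,
          Gp_none_some, Gp_none_some, inner_add_right, add_mul]
      · rw [Gp_some_some, Gp_some_some, Gp_some_some, Gp_some_none, Gp_some_none, Gp_some_none,
          MultilinearMap.map_update_add, mul_add])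
    (by
      rintro v (_ | a) c x
      · rw [Function.update_self, Function.update_self, Gp_none_some, Gp_none_some,
          real_inner_smul_right, smul_eq_mul, mul_assoc]
      · rw [Gp_some_some, Gp_some_some, Gp_some_none, Gp_some_none,
          MultilinearMap.map_update_smul, smul_eq_mul, smul_eq_mul]
        ring)

theorem Gp_m_apply (J : E n →ₗ[ℝ] E n) (ν : E n) (q : ℕ) (v : Option (Fin q × Bool) → E n) :
    Gp_m J ν q v = ⟪ν, v none⟫ * Conv_m J q (fun a => v (some a)) := rfl

theorem Gp_Conv_m_deriv (J : E n →ₗ[ℝ] E n) (q : ℕ) (g : E n → E n) (μ : ℝ)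
    (hg : ∀ z u : E n, ⟪J (g z), u⟫ + ⟪J z, g u⟫ = μ * ⟪J z, u⟫) (v : Fin q × Bool → E n) :
    ∑ b, Conv_m J q (Function.update v b (g (v b))) = (μ * q) * Conv_m J q v := by
  rw [Fintype.sum_prod_type]
  have h1 : ∀ i : Fin q,
      ∑ s, Conv_m J q (Function.update v (i, s) (g (v (i, s)))) = μ * Conv_m J q v := fun i => by
    rw [Fintype.sum_bool, Conv_m_apply, Conv_m_apply, Conv_F_update, Conv_F_update, Conv_F_false,
      Conv_F_true, ← add_mul, add_comm ⟪J (v (i, false)), _⟫, hg, mul_assoc, Conv_m_apply]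
    congr 1
    exact Finset.mul_prod_erase Finset.univ (Conv_F J v) (Finset.mem_univ i)
  rw [Finset.sum_congr rfl fun i _ => h1 i]
  rw [Finset.sum_const, Finset.card_univ, Fintype.card_fin, nsmul_eq_mul]
  ring

theorem Gp_m_deriv (J : E n →ₗ[ℝ] E n) (ν : E n) (q : ℕ) (g : E n → E n) (μ : ℝ)
    (hg : ∀ z u : E n, ⟪J (g z), u⟫ + ⟪J z, g u⟫ = μ * ⟪J z, u⟫) (hν : ∀ z, ⟪ν, g z⟫ = 0)
    (v : Option (Fin q × Bool) → E n) :
    ∑ b, Gp_m J ν q (Function.update v b (g (v b))) = (μ * q) * Gp_m J ν q v := by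
  rw [Fintype.sum_option]
  rw [Gp_m_apply, Function.update_self, hν, zero_mul, zero_add]
  have h1 : ∀ a : Fin q × Bool, Gp_m J ν q (Function.update v (some a) (g (v (some a)))) =
      ⟪ν, v none⟫ * Conv_m J q (Function.update (fun b => v (some b)) a (g (v (some a)))) :=
    fun a => by rw [Gp_m_apply, Gp_some_some, Gp_some_none]
  rw [Finset.sum_congr rfl fun a _ => h1 a, ← Finset.mul_sum, Gp_m_apply]
  have h2 := Gp_Conv_m_deriv J q g μ hg (fun b => v (some b))
  rw [h2]
  ring

/-- the alternating form -/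
noncomputable def Gp_alt (J : E n →ₗ[ℝ] E n) (ν : E n) (q : ℕ) :
    (E n) [⋀^Option (Fin q × Bool)]→ₗ[ℝ] ℝ :=
  MultilinearMap.alternatization (Gp_m J ν q)

theorem Gp_alt_apply (J : E n →ₗ[ℝ] E n) (ν : E n) (q : ℕ) (v : Option (Fin q × Bool) → E n) :
    Gp_alt J ν q v = ∑ σ : Equiv.Perm (Option (Fin q × Bool)),
      ((Equiv.Perm.sign σ : ℤ) : ℝ) * Gp_m J ν q (fun a => v (σ a)) := by
  unfold Gp_alt
  rw [MultilinearMap.alternatization_apply]
  refine Finset.sum_congr rfl fun σ _ => ?_
  rw [Units.smul_def, zsmul_eq_mul]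
  rfl

theorem Gp_alt_deriv (J : E n →ₗ[ℝ] E n) (ν : E n) (q : ℕ) (g : E n → E n) (μ : ℝ)
    (hg : ∀ z u : E n, ⟪J (g z), u⟫ + ⟪J z, g u⟫ = μ * ⟪J z, u⟫) (hν : ∀ z, ⟪ν, g z⟫ = 0)
    (v : Option (Fin q × Bool) → E n) :
    ∑ b, Gp_alt J ν q (Function.update v b (g (v b))) = (μ * q) * Gp_alt J ν q v := by
  simp_rw [Gp_alt_apply]
  rw [Finset.sum_comm, Finset.mul_sum]
  refine Finset.sum_congr rfl fun σ _ => ?_
  rw [← Finset.mul_sum]
  have h1 := Gp_m_deriv J ν q g μ hg hν (fun a => v (σ a))
  have h2 : ∑ b, Gp_m J ν q (fun a => Function.update v b (g (v b)) (σ a)) =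
      ∑ b, Gp_m J ν q (Function.update (fun a => v (σ a)) b (g (v (σ b)))) := by
    rw [← Equiv.sum_comp σ]
    refine Finset.sum_congr rfl fun b _ => ?_
    congr 1
    funext a
    by_cases hab : a = b
    · subst hab
      rw [Function.update_self, Function.update_self]
    · rw [Function.update_of_ne hab, Function.update_of_ne (fun h => hab (σ.injective h))]
  rw [h2, h1]
  ring

/-- every term of the alternating sum is nonnegative at the standard frame -/
theorem Gp_nonneg (J : E n →ₗ[ℝ] E n) (q : ℕ) (w : Fin q × Bool → E n)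
    (val : ∀ a b, ⟪J (w a), w b⟫ = if a.1 = b.1 then
      (if a.2 then (if b.2 then 0 else -1) else (if b.2 then 1 else 0)) else 0)
    (σ : Equiv.Perm (Fin q × Bool)) :
    0 ≤ ((Equiv.Perm.sign σ : ℤ) : ℝ) * ∏ i, Conv_F J (fun a => w (σ a)) i := by
  by_cases h0 : ∏ i, Conv_F J (fun a => w (σ a)) i = 0
  · rw [h0, mul_zero]
  have h1 : ∀ i, Conv_F J (fun a => w (σ a)) i ≠ 0 := fun i h =>
    h0 (Finset.prod_eq_zero (Finset.mem_univ i) h)
  have h2 : ∀ i, (σ (i, false)).1 = (σ (i, true)).1 ∧
      (σ (i, true)).2 = !(σ (i, false)).2 := fun i => by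
    have h3 := h1 i
    unfold Conv_F at h3
    rw [val] at h3
    split_ifs at h3 with a1 a2 a3 a4 <;> simp_all
  have h3 : ∀ i, Conv_F J (fun a => w (σ a)) i = if (σ (i, false)).2 then -1 else 1 := fun i => by
    unfold Conv_F
    rw [val, if_pos (h2 i).1, (h2 i).2]
    cases (σ (i, false)).2 <;> simp
  -- decomposition
  have hτ : Function.Injective (fun i => (σ (i, false)).1) := fun i j hij => by
    dsimp only at hij
    by_cases hb : (σ (i, false)).2 = (σ (j, false)).2
    · exact congrArg Prod.fst (σ.injective (Prod.ext hij hb))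
    · have h4 : σ (i, false) = σ (j, true) := by
        refine Prod.ext (hij.trans (h2 j).1) ?_
        rw [(h2 j).2]
        cases h5 : (σ (i, false)).2 <;> cases h6 : (σ (j, false)).2 <;> simp_all
      exact congrArg Prod.fst (σ.injective h4)
  let T : Equiv.Perm (Fin q) := Equiv.ofBijective _ (Finite.injective_iff_bijective.1 hτ)
  let f : Fin q → Equiv.Perm Bool := fun i => if (σ (i, false)).2 then Equiv.swap false true else 1
  have hσ : σ = (Equiv.prodCongrLeft fun _ : Bool => T) * (Equiv.prodCongrRight f) := by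
    refine Equiv.ext ?_
    rintro ⟨i, s⟩
    rw [Equiv.Perm.mul_apply, Equiv.prodCongrRight_apply, Equiv.prodCongrLeft_apply]
    have hT : T i = (σ (i, false)).1 := rfl
    rw [hT]
    cases s
    · refine Prod.ext rfl ?_
      dsimp only [f]
      cases (σ (i, false)).2 <;> simp
    · refine Prod.ext (h2 i).1.symm ?_
      dsimp only [f]
      rw [(h2 i).2]
      cases (σ (i, false)).2 <;> simp
  have hsign : ((Equiv.Perm.sign σ : ℤ) : ℝ) = ∏ i, if (σ (i, false)).2 then (-1 : ℝ) else 1 := by
    have h4 : Equiv.Perm.sign σ = ∏ i, Equiv.Perm.sign (f i) := by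
      conv_lhs => rw [hσ]
      rw [Equiv.Perm.sign_mul, Equiv.Perm.sign_prodCongrLeft, Equiv.Perm.sign_prodCongrRight,
        Fintype.prod_bool]
      simp
    rw [h4]
    push_cast
    refine Finset.prod_congr rfl fun i _ => ?_
    dsimp only [f]
    split_ifs
    · rw [Equiv.Perm.sign_swap (by decide)]; simp
    · simp
  rw [hsign]
  simp_rw [h3]
  exact mul_self_nonneg _

theorem Gp_alt_pos (J : E n →ₗ[ℝ] E n) (q : ℕ) (w : Fin q × Bool → E n)
    (hw : ∀ a b, ⟪J (w a), w b⟫ = if a.1 = b.1 then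
      (if a.2 then (if b.2 then 0 else -1) else (if b.2 then 1 else 0)) else 0)
    (ν : E n) (hν : ‖ν‖ = 1) (hνw : ∀ a, ⟪ν, w a⟫ = 0) :
    0 < Gp_alt J ν q (fun o => Option.elim o ν w) := by
  have hνν : ⟪ν, ν⟫ = (1 : ℝ) := by rw [real_inner_self_eq_norm_sq, hν, one_pow]
  rw [Gp_alt_apply]
  have hnn : ∀ σ : Equiv.Perm (Option (Fin q × Bool)),
      0 ≤ ((Equiv.Perm.sign σ : ℤ) : ℝ) *
        Gp_m J ν q (fun a => Option.elim (σ a) ν w) := by
    intro σ
    rw [Gp_m_apply]
    cases hσ : σ none with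
    | some b => simp [hνw]
    | none =>
      have hs : σ = Equiv.optionCongr (Equiv.removeNone σ) := by
        rw [map_equiv_removeNone, hσ, Equiv.swap_self]
        rfl
      have hsome : ∀ a, σ (some a) = some (Equiv.removeNone σ a) := fun a => by
        conv_lhs => rw [hs]
        rfl
      have hsign : Equiv.Perm.sign σ = Equiv.Perm.sign (Equiv.removeNone σ) := by
        conv_lhs => rw [hs]
        exact Equiv.optionCongr_sign _
      have h1 := Gp_nonneg J q w hw (Equiv.removeNone σ)
      simp only [hsome, Option.elim]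
      rw [hsign, hνν, one_mul]
      exact h1
  refine lt_of_lt_of_le ?_ (Finset.single_le_sum (fun σ _ => hnn σ) (Finset.mem_univ 1))
  rw [Equiv.Perm.sign_one, Gp_m_apply, Conv_m_apply]
  have h1 : ∀ i, Conv_F J (fun a => Option.elim
      ((1 : Equiv.Perm (Option (Fin q × Bool))) (some a)) ν w) i = 1 := fun i => by
    change ⟪J (w (i, false)), w (i, true)⟫ = 1
    rw [hw]
    simp
  rw [Finset.prod_congr rfl fun i _ => h1 i]
  simp [hν]

/-- Piece G': the same times a vector `ν` -/
theorem exists_form' (J : E n →ₗ[ℝ] E n) (q : ℕ) (w : Fin q × Bool → E n)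
    (hw : ∀ a b, ⟪J (w a), w b⟫ = if a.1 = b.1 then
      (if a.2 then (if b.2 then 0 else -1) else (if b.2 then 1 else 0)) else 0)
    (ν : E n) (hν : ‖ν‖ = 1) (hνw : ∀ a, ⟪ν, w a⟫ = 0) :
    ∃ ω : Form n (2 * q + 1), ω ≠ 0 ∧ ∀ (g : E n → E n) (μ : ℝ),
      (∀ z u : E n, ⟪J (g z), u⟫ + ⟪J z, g u⟫ = μ * ⟪J z, u⟫) → (∀ z, ⟪ν, g z⟫ = 0) →
      ∀ v : Fin (2 * q + 1) → E n,
        ∑ b, ω (Function.update v b (g (v b))) = (μ * q) * ω v := by
  let eqv : Option (Fin q × Bool) ≃ Fin (2 * q + 1) :=
    (Fintype.equivFinOfCardEq (by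
      rw [Fintype.card_option, Fintype.card_prod, Fintype.card_fin, Fintype.card_bool]; ring))
  let ω : Form n (2 * q + 1) := (Gp_alt J ν q).domDomCongr eqv
  have hω : ∀ v, ω v = Gp_alt J ν q (fun a => v (eqv a)) := fun v => rfl
  refine ⟨ω, ?_, ?_⟩
  · have hv := Gp_alt_pos J q w hw ν hν hνw
    intro h0
    have h1 : ω (fun a => (fun o => Option.elim o ν w) (eqv.symm a)) = 0 := by rw [h0]; rfl
    rw [hω] at h1
    simp only [Equiv.symm_apply_apply] at h1
    linarith
  · intro g μ hg hgν v
    rw [← Equiv.sum_comp eqv]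
    have h1 := Gp_alt_deriv J ν q g μ hg hgν (fun a => v (eqv a))
    rw [hω v, ← h1]
    refine Finset.sum_congr rfl fun b _ => ?_
    rw [hω]
    congr 1
    funext a
    by_cases hab : a = b
    · subst hab
      rw [Function.update_self, Function.update_self]
    · rw [Function.update_of_ne hab, Function.update_of_ne (fun h => hab (eqv.injective h))]

end Pool.Agent.H91.SX
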