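import Pool.Agent.H8.RG.Conv

set_option autoImplicit false

/-!
Piece J of project SX: a skew map of rank `2 m` with `J³ = -J`, and its standard frame.
-/

namespace Pool.Agent.H91.SX

open Pool.Agent.H61.YP Pool.Agent.H8.RG
open scoped BigOperators RealInnerProductSpace

/-- the complex structure of the frame `w` -/
private noncomputable def jm {n m : ℕ} (w : Fin m × Bool → E n) : E n →ₗ[ℝ] E n where
  toFun x := ∑ i : Fin m, (⟪w (i, false), x⟫ • w (i, true) - ⟪w (i, true), x⟫ • w (i, false))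
  map_add' x y := by
    rw [← Finset.sum_add_distrib]
    refine Finset.sum_congr rfl fun i _ => ?_
    rw [inner_add_right, inner_add_right, add_smul, add_smul]
    abel
  map_smul' c x := by
    rw [RingHom.id_apply, Finset.smul_sum]
    refine Finset.sum_congr rfl fun i _ => ?_
    rw [real_inner_smul_right, real_inner_smul_right, mul_smul, mul_smul, smul_sub]

private theorem jm_apply {n m : ℕ} (w : Fin m × Bool → E n) (x : E n) :
    jm w x = ∑ i : Fin m, (⟪w (i, false), x⟫ • w (i, true) - ⟪w (i, true), x⟫ • w (i, false)) := rfl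

private theorem jm_inner {n m : ℕ} (w : Fin m × Bool → E n) (x y : E n) :
    ⟪jm w x, y⟫ = ∑ i : Fin m, (⟪w (i, false), x⟫ * ⟪w (i, true), y⟫ - ⟪w (i, true), x⟫ * ⟪w (i, false), y⟫) := by
  rw [jm_apply, sum_inner]
  refine Finset.sum_congr rfl fun i _ => ?_
  rw [inner_sub_left, real_inner_smul_left, real_inner_smul_left]

private theorem jm_false {n m : ℕ} {w : Fin m × Bool → E n} (hw : ∀ a b, ⟪w a, w b⟫ = if a = b then (1 : ℝ) else 0)
    (j : Fin m) (x : E n) : ⟪w (j, false), jm w x⟫ = -⟪w (j, true), x⟫ := by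
  rw [real_inner_comm, jm_inner, Finset.sum_eq_single j]
  · rw [hw, hw, if_neg (by simp), if_pos rfl]
    ring
  · intro i _ hij
    rw [hw, hw, if_neg (by simp), if_neg (by simpa using hij)]
    ring
  · intro h
    exact absurd (Finset.mem_univ _) h

private theorem jm_true {n m : ℕ} {w : Fin m × Bool → E n} (hw : ∀ a b, ⟪w a, w b⟫ = if a = b then (1 : ℝ) else 0)
    (j : Fin m) (x : E n) : ⟪w (j, true), jm w x⟫ = ⟪w (j, false), x⟫ := by
  rw [real_inner_comm, jm_inner, Finset.sum_eq_single j]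
  · rw [hw, hw, if_pos rfl, if_neg (by simp)]
    ring
  · intro i _ hij
    rw [hw, hw, if_neg (by simpa using hij), if_neg (by simp)]
    ring
  · intro h
    exact absurd (Finset.mem_univ _) h

private theorem jm_sq {n m : ℕ} {w : Fin m × Bool → E n} (hw : ∀ a b, ⟪w a, w b⟫ = if a = b then (1 : ℝ) else 0)
    (x : E n) : jm w (jm w x) = ∑ i : Fin m, (-⟪w (i, true), x⟫ • w (i, true) - ⟪w (i, false), x⟫ • w (i, false)) := by
  rw [jm_apply]
  refine Finset.sum_congr rfl fun i _ => ?_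
  rw [jm_false hw, jm_true hw]

private theorem jm_cube {n m : ℕ} {w : Fin m × Bool → E n} (hw : ∀ a b, ⟪w a, w b⟫ = if a = b then (1 : ℝ) else 0)
    (x : E n) : jm w (jm w (jm w x)) = -jm w x := by
  have h1 : jm w (jm w (jm w x)) =
      ∑ i : Fin m, (-⟪w (i, false), x⟫ • w (i, true) - -⟪w (i, true), x⟫ • w (i, false)) := by
    rw [jm_sq hw]
    refine Finset.sum_congr rfl fun i _ => ?_
    rw [jm_false hw, jm_true hw]
  rw [h1, jm_apply, ← Finset.sum_neg_distrib]
  refine Finset.sum_congr rfl fun i _ => ?_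
  rw [neg_smul, neg_smul]
  abel

private theorem ee_inner {n : ℕ} (i j : Fin n) : ⟪(e i : E n), e j⟫ = if i = j then (1 : ℝ) else 0 := by
  unfold e
  rw [EuclideanSpace.inner_single_left]
  simp

private theorem ee_sq {n : ℕ} (j : Fin n) : ∑ k, ⟪(e j : E n), e k⟫ * ⟪(e j : E n), e k⟫ = (1 : ℝ) := by
  rw [Finset.sum_eq_single j]
  · rw [ee_inner, if_pos rfl, mul_one]
  · intro k _ hk
    rw [ee_inner, if_neg (Ne.symm hk), mul_zero]
  · intro h
    exact absurd (Finset.mem_univ _) h

/-- the index of the frame -/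
private def ix {n m : ℕ} (hm : 2 * m ≤ n) (a : Fin m × Bool) : Fin n :=
  ⟨2 * a.1.1 + (if a.2 then 1 else 0), by
    have h := a.1.2
    split_ifs <;> omega⟩

private theorem ix_inj {n m : ℕ} (hm : 2 * m ≤ n) : Function.Injective (ix hm) := by
  rintro ⟨i, a⟩ ⟨j, b⟩ h
  have h1 := congrArg Fin.val h
  unfold ix at h1
  cases a <;> cases b <;> simp only [if_true, Bool.false_eq_true, if_false] at h1
  · rw [show i = j from Fin.ext (by omega)]
  · omega
  · omega
  · rw [show i = j from Fin.ext (by omega)]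

/-- Piece J: a skew map of rank `2 m` with `J³ = -J`, and its standard frame -/
theorem exists_J (n m : ℕ) (hm : 2 * m ≤ n) :
    ∃ (J : E n →ₗ[ℝ] E n) (w : Fin m × Bool → E n),
      (∀ x y : E n, ⟪J x, y⟫ = - ⟪J y, x⟫) ∧ (∀ x, J (J (J x)) = -J x) ∧
      (∑ i, ⟪J (J (e i)), (e i : E n)⟫ = -(2 * (m : ℝ))) ∧
      (∀ a b, ⟪J (w a), w b⟫ = if a.1 = b.1 then
        (if a.2 then (if b.2 then 0 else -1) else (if b.2 then 1 else 0)) else 0) ∧
      (2 * m < n → ∃ ν : E n, ‖ν‖ = 1 ∧ J ν = 0 ∧ ∀ a, ⟪ν, w a⟫ = 0) := by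
  have hw : ∀ a b : Fin m × Bool, ⟪(e (ix hm a) : E n), e (ix hm b)⟫ = if a = b then (1 : ℝ) else 0 := by
    intro a b
    rw [ee_inner]
    by_cases h : a = b
    · rw [if_pos h, if_pos (by rw [h])]
    · rw [if_neg h, if_neg (fun h1 => h (ix_inj hm h1))]
  refine ⟨jm (fun a => (e (ix hm a) : E n)), fun a => (e (ix hm a) : E n), ?_, jm_cube hw, ?_, ?_, ?_⟩
  · intro x y
    rw [jm_inner, jm_inner, ← Finset.sum_neg_distrib]
    exact Finset.sum_congr rfl fun i _ => by ring
  · have h1 : ∀ k : Fin n, ⟪jm (fun a => (e (ix hm a) : E n)) (jm (fun a => (e (ix hm a) : E n)) (e k)), (e k : E n)⟫ =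
        ∑ i : Fin m, (-(⟪(e (ix hm (i, true)) : E n), e k⟫ * ⟪(e (ix hm (i, true)) : E n), e k⟫) -
          ⟪(e (ix hm (i, false)) : E n), e k⟫ * ⟪(e (ix hm (i, false)) : E n), e k⟫) := by
      intro k
      rw [jm_sq hw, sum_inner]
      refine Finset.sum_congr rfl fun i _ => ?_
      rw [inner_sub_left, real_inner_smul_left, real_inner_smul_left, neg_mul]
    rw [Finset.sum_congr rfl fun k _ => h1 k, Finset.sum_comm]
    have h2 : ∀ i : Fin m, ∑ k : Fin n, (-(⟪(e (ix hm (i, true)) : E n), e k⟫ * ⟪(e (ix hm (i, true)) : E n), e k⟫) -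
          ⟪(e (ix hm (i, false)) : E n), e k⟫ * ⟪(e (ix hm (i, false)) : E n), e k⟫) = -2 := by
      intro i
      rw [Finset.sum_sub_distrib, Finset.sum_neg_distrib, ee_sq, ee_sq]
      norm_num
    rw [Finset.sum_congr rfl fun i _ => h2 i, Finset.sum_const, Finset.card_univ, Fintype.card_fin, nsmul_eq_mul]
    ring
  · rintro ⟨i, a⟩ ⟨j, b⟩
    have hJ : ⟪jm (fun a => (e (ix hm a) : E n)) (e (ix hm (i, a))), (e (ix hm (j, b)) : E n)⟫ =
        (if b then ⟪(e (ix hm (j, false)) : E n), e (ix hm (i, a))⟫ else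
          -⟪(e (ix hm (j, true)) : E n), e (ix hm (i, a))⟫ : ℝ) := by
      rw [real_inner_comm]
      cases b
      · rw [if_neg (by simp)]
        exact jm_false hw j _
      · rw [if_pos rfl]
        exact jm_true hw j _
    change ⟪jm (fun a => (e (ix hm a) : E n)) (e (ix hm (i, a))), (e (ix hm (j, b)) : E n)⟫ = _
    rw [hJ, hw, hw]
    by_cases hij : i = j
    · subst hij
      cases a <;> cases b <;> simp
    · have hji : ¬ j = i := fun h => hij h.symm
      cases a <;> cases b <;> simp [hij, hji]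
  · intro hlt
    have hz : ∀ a, ⟪(e ⟨2 * m, hlt⟩ : E n), e (ix hm a)⟫ = (0 : ℝ) := by
      intro a
      rw [ee_inner, if_neg]
      intro h
      have h1 := congrArg Fin.val h
      unfold ix at h1
      have h2 := a.1.2
      simp only at h1
      split_ifs at h1 <;> omega
    refine ⟨e ⟨2 * m, hlt⟩, ?_, ?_, hz⟩
    · unfold e
      rw [PiLp.norm_single, norm_one]
    · rw [jm_apply]
      refine Finset.sum_eq_zero fun i _ => ?_
      rw [real_inner_comm, hz, real_inner_comm, hz, zero_smul, zero_smul, sub_zero]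

end Pool.Agent.H91.SX
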