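import Pool.Agent.H8.RG.Conv

set_option autoImplicit false

namespace Pool.Agent.H91.SX

open Pool.Agent.H61.YP Pool.Agent.H8.RG
open scoped BigOperators RealInnerProductSpace

variable {n : ℕ}

/-- a form as a linear form of its value in place `b` -/
noncomputable def sl {p : ℕ} (ω : Form n p) (v : Fin p → E n) (b : Fin p) : E n →ₗ[ℝ] ℝ :=
  ω.toMultilinearMap.toLinearMap v b

lemma sl_apply {p : ℕ} (ω : Form n p) (v : Fin p → E n) (b : Fin p) (x : E n) :
    sl ω v b x = ω (Function.update v b x) := rfl

/-- sum over an orthonormal basis -/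
lemma sum_sl (L : E n →ₗ[ℝ] ℝ) (y : E n) : ∑ i, ⟪y, (e i : E n)⟫ * L (e i) = L y := by
  rw [CurvTensor.lin_sum L y]
  refine Finset.sum_congr rfl fun i _ => ?_
  rw [real_inner_comm]
  simp [e, EuclideanSpace.inner_single_left]

lemma upd_swap {p : ℕ} (ω : Form n p) (v : Fin p → E n) {a b : Fin p} (hab : a ≠ b) (x y : E n) :
    ω (Function.update (Function.update v a y) b x)
      = -ω (Function.update (Function.update v a x) b y) := by
  have h1 := ω.map_swap (Function.update (Function.update v a x) b y) hab
  rw [← h1]
  congr 1
  funext i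
  rw [Function.comp_apply]
  by_cases hia : i = a
  · subst hia
    rw [Equiv.swap_apply_left, Function.update_self, Function.update_of_ne hab,
      Function.update_self]
  · by_cases hib : i = b
    · subst hib
      rw [Equiv.swap_apply_right, Function.update_self, Function.update_of_ne hab,
        Function.update_self]
    · rw [Equiv.swap_apply_of_ne_of_ne hia hib, Function.update_of_ne hib,
        Function.update_of_ne hia, Function.update_of_ne hib, Function.update_of_ne hia]

lemma trace_zero (P : E n →ₗ[ℝ] E n) (hP : ∀ x y : E n, ⟪P x, y⟫ = ⟪x, P y⟫)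
    (B : E n → E n → ℝ) (hB : ∀ x y, B y x = -B x y)
    (hl : ∀ x y, ∑ i, ⟪y, (e i : E n)⟫ * B x (e i) = B x y) :
    ∑ i, B (e i) (P (e i)) = 0 := by
  have h1 : ∑ i, B (e i) (P (e i)) = ∑ i, ∑ j, ⟪P (e i), (e j : E n)⟫ * B (e i) (e j) := by
    refine Finset.sum_congr rfl fun i _ => (hl _ _).symm
  have h2 : ∑ i, ∑ j, ⟪P (e i), (e j : E n)⟫ * B (e i) (e j)
      = -∑ i, ∑ j, ⟪P (e i), (e j : E n)⟫ * B (e i) (e j) := by
    conv_lhs => rw [Finset.sum_comm]
    rw [← Finset.sum_neg_distrib]
    refine Finset.sum_congr rfl fun i _ => ?_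
    rw [← Finset.sum_neg_distrib]
    refine Finset.sum_congr rfl fun j _ => ?_
    rw [hB (e i) (e j), hP (e j) (e i), real_inner_comm (P (e i)) (e j)]
    ring
  rw [h1]
  linarith

/-- the Weitzenböck operator of the curvature tensor `P ∧ P`, `P` symmetric -/
theorem weitz_S (P : E n →ₗ[ℝ] E n) (hP : ∀ x y : E n, ⟪P x, y⟫ = ⟪x, P y⟫) (t lam : ℝ)
    (ht : ∑ i, ⟪P (e i), (e i : E n)⟫ = t) {p : ℕ} (ω : Form n p)
    (hD : ∀ v : Fin p → E n, ∑ b, ω (Function.update v b (P (v b))) = lam * ω v)
    (v : Fin p → E n) :
    ∑ a, ∑ i, -(∑ b, ω (Function.update (Function.update v a (e i)) b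
      (⟪P (v a), Function.update v a (e i) b⟫ • P (e i)
        - ⟪P (e i), Function.update v a (e i) b⟫ • P (v a))))
      = (t * lam - lam ^ 2) * ω v := by
  have hmain : ∀ a : Fin p, ∑ i, -(∑ b, ω (Function.update (Function.update v a (e i)) b
      (⟪P (v a), Function.update v a (e i) b⟫ • P (e i)
        - ⟪P (e i), Function.update v a (e i) b⟫ • P (v a))))
      = (t - lam) * ω (Function.update v a (P (v a))) := by
    intro a
    rw [Finset.sum_neg_distrib, Finset.sum_comm]
    have hb : ∀ b : Fin p, ∑ i, ω (Function.update (Function.update v a (e i)) b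
        (⟪P (v a), Function.update v a (e i) b⟫ • P (e i)
          - ⟪P (e i), Function.update v a (e i) b⟫ • P (v a)))
        = ω (Function.update (Function.update v a (P (v a))) b
            (P (Function.update v a (P (v a)) b)))
          - (if b = a then t * ω (Function.update v a (P (v a))) else 0) := by
      intro b
      by_cases hba : b = a
      · subst hba
        simp only [Function.update_self, Function.update_idem, if_true]
        have h1 : ∀ i : Fin n, ω (Function.update v b (⟪P (v b), (e i : E n)⟫ • P (e i)
            - ⟪P (e i), (e i : E n)⟫ • P (v b)))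
            = ⟪P (v b), (e i : E n)⟫ * (sl ω v b ∘ₗ P) (e i)
              - ⟪P (e i), (e i : E n)⟫ * ω (Function.update v b (P (v b))) := by
          intro i
          rw [AlternatingMap.map_update_sub, AlternatingMap.map_update_smul,
            AlternatingMap.map_update_smul]
          rfl
        simp_rw [h1]
        rw [Finset.sum_sub_distrib, sum_sl, ← Finset.sum_mul, ht]
        rfl
      · rw [if_neg hba, sub_zero]
        have hab : a ≠ b := fun h => hba h.symm
        have h1 : ∀ i : Fin n, ω (Function.update (Function.update v a (e i)) b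
            (⟪P (v a), Function.update v a (e i) b⟫ • P (e i)
              - ⟪P (e i), Function.update v a (e i) b⟫ • P (v a)))
            = ⟪P (v a), v b⟫ * ω (Function.update (Function.update v a (e i)) b (P (e i)))
              - ⟪P (v b), (e i : E n)⟫ * -(sl ω (Function.update v a (P (v a))) b) (e i) := by
          intro i
          rw [Function.update_of_ne hba, AlternatingMap.map_update_sub,
            AlternatingMap.map_update_smul, AlternatingMap.map_update_smul, sl_apply,
            upd_swap ω v hab (P (v a)) (e i), hP (e i) (v b), real_inner_comm (P (v b)) (e i)]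
          simp only [smul_eq_mul]
        simp_rw [h1]
        rw [Finset.sum_sub_distrib, ← Finset.mul_sum,
          trace_zero P hP (fun x y => ω (Function.update (Function.update v a x) b y))
            (fun x y => upd_swap ω v hab x y)
            (fun x y => sum_sl (sl ω (Function.update v a x) b) y), mul_zero, zero_sub]
        simp_rw [mul_neg]
        rw [Finset.sum_neg_distrib, neg_neg, sum_sl, sl_apply, Function.update_of_ne hba]
    simp_rw [hb]
    rw [Finset.sum_sub_distrib, hD]
    simp
    ring
  simp_rw [hmain]
  rw [← Finset.mul_sum, hD]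
  ring

end Pool.Agent.H91.SX
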