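import Pool.Agent.H91.SX.G
import Pool.Agent.H91.SX.Gp
import Pool.Agent.H91.SX.J
import Pool.Agent.H91.SX.S
import Pool.Agent.H8.RG.CP

set_option autoImplicit false

/-!
# The equality case in all degrees and dimensions
-/

namespace Pool.Agent.H91.SX

open Pool.Agent.H61.YP Pool.Agent.H8.RG
open scoped BigOperators RealInnerProductSpace

variable {n : ℕ}

/-- `c` times the curvature tensor of the sphere, plus the curvature tensor with the sectional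
curvatures `⟨J x, y⟩²` -/
noncomputable def RJ (c : ℝ) (J : E n →ₗ[ℝ] E n) (hs : ∀ x y : E n, ⟪J x, y⟫ = - ⟪J y, x⟫) :
    CurvTensor n where
  toFun x y z u := c * (⟪y, z⟫ * ⟪x, u⟫ - ⟪x, z⟫ * ⟪y, u⟫)
    + 1 / 3 * (⟪J y, z⟫ * ⟪J x, u⟫ - ⟪J x, z⟫ * ⟪J y, u⟫ - 2 * ⟪J x, y⟫ * ⟪J z, u⟫)
  add_left x x' y z u := by
    simp only [map_add, inner_add_left]; ring
  smul_left a x y z u := by
    simp only [map_smul, real_inner_smul_left]; ring
  anti x y z u := by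
    rw [hs y x]; ring
  pair x y z u := by
    rw [real_inner_comm z y, real_inner_comm u x, real_inner_comm z x, real_inner_comm u y,
      hs u x, hs z y, hs z x, hs u y]
    ring
  bianchi x y z u := by
    rw [real_inner_comm x z, real_inner_comm x y, real_inner_comm y z, hs z y, hs x z, hs y x]
    ring

/-- the part of the sphere relative to `P` -/
noncomputable def SP (P : E n →ₗ[ℝ] E n) (x y z : E n) : E n :=
  ⟪P y, z⟫ • P x - ⟪P x, z⟫ • P y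

/-- the part of complex projective space -/
noncomputable def FS (J P : E n →ₗ[ℝ] E n) (x y z : E n) : E n :=
  SP P x y z + (⟪J y, z⟫ • J x - ⟪J x, z⟫ • J y - (2 * ⟪J x, y⟫) • J z)

section

variable (c : ℝ) (J : E n →ₗ[ℝ] E n) (hs : ∀ x y : E n, ⟪J x, y⟫ = - ⟪J y, x⟫)

lemma skew' (hs : ∀ x y : E n, ⟪J x, y⟫ = - ⟪J y, x⟫) (x y : E n) : ⟪x, J y⟫ = - ⟪J x, y⟫ := by
  rw [real_inner_comm, hs y x]

lemma self_zero (hs : ∀ x y : E n, ⟪J x, y⟫ = - ⟪J y, x⟫) (x : E n) : ⟪J x, x⟫ = 0 := by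
  have := hs x x
  linarith

lemma RJ_sec (x y : E n) (hx : ‖x‖ = 1) (hy : ‖y‖ = 1) (hxy : ⟪x, y⟫ = 0) :
    (RJ c J hs).toFun x y y x = c + ⟪J x, y⟫ ^ 2 := by
  change c * (⟪y, y⟫ * ⟪x, x⟫ - ⟪x, y⟫ * ⟪y, x⟫)
    + 1 / 3 * (⟪J y, y⟫ * ⟪J x, x⟫ - ⟪J x, y⟫ * ⟪J y, x⟫ - 2 * ⟪J x, y⟫ * ⟪J y, x⟫) = _
  rw [real_inner_self_eq_norm_sq, real_inner_self_eq_norm_sq, hx, hy, hxy, hs y x,
    self_zero J hs x]
  ring

lemma RJ_scal (t : ℝ) (ht : ∑ i, ⟪J (J (e i)), (e i : E n)⟫ = -t) :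
    (RJ c J hs).scal = c * ((n : ℝ) * ((n : ℝ) - 1)) + t := by
  unfold CurvTensor.scal
  have h1 : ∀ i j : Fin n, (RJ c J hs).toFun (e i) (e j) (e j) (e i)
      = c * (1 - ⟪(e i : E n), e j⟫ ^ 2) + ⟪J (e i), e j⟫ ^ 2 := by
    intro i j
    change c * (⟪(e j : E n), e j⟫ * ⟪(e i : E n), e i⟫ - ⟪(e i : E n), e j⟫ * ⟪(e j : E n), e i⟫)
      + 1 / 3 * (⟪J (e j), e j⟫ * ⟪J (e i), e i⟫ - ⟪J (e i), e j⟫ * ⟪J (e j), e i⟫
        - 2 * ⟪J (e i), e j⟫ * ⟪J (e j), e i⟫) = _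
    have e1 : ∀ j : Fin n, ⟪(e j : E n), e j⟫ = 1 := fun j => by
      rw [real_inner_self_eq_norm_sq]; simp [e]
    rw [e1, e1, self_zero J hs, self_zero J hs, hs (e j) (e i), real_inner_comm (e i) (e j)]
    ring
  simp_rw [h1]
  simp_rw [Finset.sum_add_distrib, ← Finset.mul_sum, Finset.sum_sub_distrib, Cplx_sum_sq]
  have e2 : ∀ i : Fin n, ‖J (e i)‖ ^ 2 = - ⟪J (J (e i)), (e i : E n)⟫ := by
    intro i
    rw [hs, neg_neg, real_inner_self_eq_norm_sq]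
  simp_rw [e2]
  rw [Finset.sum_neg_distrib, ht]
  have e3 : ∀ i : Fin n, ‖(e i : E n)‖ = 1 := fun i => by simp [e]
  simp only [e3, Finset.sum_const, Finset.card_univ, Fintype.card_fin, nsmul_eq_mul, one_pow]
  ring

lemma RJ_op (x y z : E n) : (RJ c J hs).op x y z
    = c • SP LinearMap.id x y z + (1 / 3 : ℝ) • FS J (-(J ∘ₗ J)) x y z
      - (1 / 3 : ℝ) • SP (-(J ∘ₗ J)) x y z := by
  refine ext_inner_right ℝ fun u => ?_
  have h1 : ⟪(RJ c J hs).op x y z, u⟫ = (RJ c J hs).toFun x y z u :=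
    inner_sum_e ((RJ c J hs).L4 x y z) u
  rw [h1]
  change c * (⟪y, z⟫ * ⟪x, u⟫ - ⟪x, z⟫ * ⟪y, u⟫)
    + 1 / 3 * (⟪J y, z⟫ * ⟪J x, u⟫ - ⟪J x, z⟫ * ⟪J y, u⟫ - 2 * ⟪J x, y⟫ * ⟪J z, u⟫) = _
  unfold FS SP
  simp only [inner_add_left, inner_sub_left, real_inner_smul_left, LinearMap.id_coe, id_eq]
  ring

end

/-- the Weitzenböck operator of `RJ c J` on a form with the derivation property -/
theorem weitz_RJ (c : ℝ) (J : E n →ₗ[ℝ] E n) (hs : ∀ x y : E n, ⟪J x, y⟫ = - ⟪J y, x⟫)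
    (hJ : ∀ x, J (J (J x)) = -J x) (t : ℝ) (ht : ∑ i, ⟪J (J (e i)), (e i : E n)⟫ = -t)
    (ν : E n) (hν : J ν = 0) (q : ℝ) {p : ℕ} (ω : Form n p)
    (hω : ∀ (g : E n → E n) (μ : ℝ),
      (∀ z u : E n, ⟪J (g z), u⟫ + ⟪J z, g u⟫ = μ * ⟪J z, u⟫) → (∀ z, ⟪ν, g z⟫ = 0) →
      ∀ v : Fin p → E n, ∑ b, ω (Function.update v b (g (v b))) = (μ * q) * ω v)
    (v : Fin p → E n) :
    (RJ c J hs).weitz ω v
      = (c * ((n : ℝ) * p - (p : ℝ) ^ 2) - 1 / 3 * (t * (2 * q) - (2 * q) ^ 2)) * ω v := by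
  set P : E n →ₗ[ℝ] E n := -(J ∘ₗ J) with hPdef
  have hPx : ∀ x, P x = -J (J x) := fun x => rfl
  have hJJ : ∀ x y : E n, ⟪J x, J y⟫ = ⟪P x, y⟫ := by
    intro x y
    rw [skew' J hs, hPx, inner_neg_left]
  have hJP : ∀ x, J (P x) = J x := by
    intro x
    rw [hPx, map_neg, hJ, neg_neg]
  have hPJ : ∀ x, P (J x) = J x := by
    intro x
    rw [hPx, hJ, neg_neg]
  have hPs : ∀ x y : E n, ⟪P x, y⟫ = ⟪x, P y⟫ := by
    intro x y
    rw [← hJJ, real_inner_comm, hJJ, real_inner_comm]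
  have hJPi : ∀ x y : E n, ⟪J x, P y⟫ = ⟪J x, y⟫ := by
    intro x y
    rw [← hPs, hPJ]
  have hν1 : ∀ z, ⟪ν, J z⟫ = 0 := by
    intro z
    rw [skew' J hs, hν, inner_zero_left, neg_zero]
  have hν2 : ∀ z, ⟪ν, P z⟫ = 0 := by
    intro z
    rw [hPx, inner_neg_right, hν1, neg_zero]
  -- the derivation of `P`
  have hDP : ∀ v : Fin p → E n, ∑ b, ω (Function.update v b (P (v b))) = (2 * q) * ω v := by
    refine hω P 2 (fun z u => ?_) hν2
    rw [hJP, hJPi]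
    ring
  have hDI : ∀ v : Fin p → E n,
      ∑ b, ω (Function.update v b ((LinearMap.id : E n →ₗ[ℝ] E n) (v b))) = (p : ℝ) * ω v := by
    intro v
    simp
  -- the part of complex projective space
  have hFS : ∀ (x y : E n) (v : Fin p → E n),
      ∑ b, ω (Function.update v b (FS J P x y (v b))) = 0 := by
    intro x y v
    have := hω (FS J P x y) 0 (fun z u => ?_) (fun z => ?_) v
    · rw [this]; ring
    · unfold FS SP
      simp only [map_add, map_sub, map_smul, inner_add_left, inner_sub_left, inner_add_right,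
        inner_sub_right, real_inner_smul_left, real_inner_smul_right, hJP, hJJ, hJPi]
      have e1 : ∀ x y : E n, ⟪J (J x), y⟫ = -⟪P x, y⟫ := by
        intro x y
        rw [hPx, inner_neg_left, neg_neg]
      simp only [e1]
      have e2 : ⟪P z, x⟫ = ⟪P x, z⟫ := by rw [hPs, real_inner_comm]
      have e3 : ⟪P z, y⟫ = ⟪P y, z⟫ := by rw [hPs, real_inner_comm]
      rw [e2, e3, hs z x, hs z y]
      ring
    · unfold FS SP
      simp only [inner_add_right, inner_sub_right, real_inner_smul_right, hν1, hν2]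
      ring
  have hact : ∀ (x y : E n) (u : Fin p → E n), (RJ c J hs).act ω x y u
      = c * -(∑ b, ω (Function.update u b (SP LinearMap.id x y (u b))))
        - 1 / 3 * -(∑ b, ω (Function.update u b (SP P x y (u b)))) := by
    intro x y u
    unfold CurvTensor.act
    have h1 : ∀ b, ω (Function.update u b ((RJ c J hs).op x y (u b)))
        = c * ω (Function.update u b (SP LinearMap.id x y (u b)))
          + 1 / 3 * ω (Function.update u b (FS J P x y (u b)))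
          - 1 / 3 * ω (Function.update u b (SP P x y (u b))) := by
      intro b
      rw [RJ_op, AlternatingMap.map_update_sub, AlternatingMap.map_update_add,
        AlternatingMap.map_update_smul, AlternatingMap.map_update_smul,
        AlternatingMap.map_update_smul]
      simp only [smul_eq_mul]
      rfl
    simp_rw [h1]
    rw [Finset.sum_sub_distrib, Finset.sum_add_distrib, ← Finset.mul_sum, ← Finset.mul_sum,
      ← Finset.mul_sum, hFS]
    ring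
  unfold CurvTensor.weitz
  simp_rw [hact]
  simp_rw [Finset.sum_sub_distrib, ← Finset.mul_sum]
  have htP : ∑ i, ⟪P (e i), (e i : E n)⟫ = t := by
    have : ∀ i : Fin n, ⟪P (e i), (e i : E n)⟫ = -⟪J (J (e i)), (e i : E n)⟫ := by
      intro i
      rw [hPx, inner_neg_left]
    simp_rw [this]
    rw [Finset.sum_neg_distrib, ht, neg_neg]
  have htI : ∑ i, ⟪(LinearMap.id : E n →ₗ[ℝ] E n) (e i), (e i : E n)⟫ = (n : ℝ) := by
    have : ∀ i : Fin n, ⟪(LinearMap.id : E n →ₗ[ℝ] E n) (e i), (e i : E n)⟫ = 1 := by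
      intro i
      rw [LinearMap.id_apply, real_inner_self_eq_norm_sq]; simp [e]
    simp_rw [this]
    simp
  have s1 := weitz_S (LinearMap.id : E n →ₗ[ℝ] E n) (fun x y => rfl) (n : ℝ) (p : ℝ) htI ω hDI v
  have s2 := weitz_S P hPs t (2 * q) htP ω hDP v
  have s1' : ∑ a, ∑ i, -(∑ b, ω (Function.update (Function.update v a (e i)) b
      (SP LinearMap.id (e i) (v a) (Function.update v a (e i) b))))
      = ((n : ℝ) * p - (p : ℝ) ^ 2) * ω v := s1
  have s2' : ∑ a, ∑ i, -(∑ b, ω (Function.update (Function.update v a (e i)) b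
      (SP P (e i) (v a) (Function.update v a (e i) b))))
      = (t * (2 * q) - (2 * q) ^ 2) * ω v := s2
  rw [s1', s2']
  ring

theorem weitzForm_RJ (c : ℝ) (J : E n →ₗ[ℝ] E n) (hs : ∀ x y : E n, ⟪J x, y⟫ = - ⟪J y, x⟫)
    (hJ : ∀ x, J (J (J x)) = -J x) (t : ℝ) (ht : ∑ i, ⟪J (J (e i)), (e i : E n)⟫ = -t)
    (ν : E n) (hν : J ν = 0) (q : ℝ) {p : ℕ} (ω : Form n p)
    (hω : ∀ (g : E n → E n) (μ : ℝ),
      (∀ z u : E n, ⟪J (g z), u⟫ + ⟪J z, g u⟫ = μ * ⟪J z, u⟫) → (∀ z, ⟪ν, g z⟫ = 0) →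
      ∀ v : Fin p → E n, ∑ b, ω (Function.update v b (g (v b))) = (μ * q) * ω v) :
    (RJ c J hs).weitzForm ω
      = (c * ((n : ℝ) * p - (p : ℝ) ^ 2) - 1 / 3 * (t * (2 * q) - (2 * q) ^ 2)) * ip ω ω := by
  unfold CurvTensor.weitzForm ip
  rw [Finset.mul_sum]
  refine Finset.sum_congr rfl fun I _ => ?_
  rw [weitz_RJ c J hs hJ t ht ν hν q ω hω]
  ring

/-- restriction of the standard frame -/
lemma frame_restrict (J : E n →ₗ[ℝ] E n) {q m : ℕ} (hqm : q ≤ m) (w : Fin m × Bool → E n)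
    (hw : ∀ a b, ⟪J (w a), w b⟫ = if a.1 = b.1 then
      (if a.2 then (if b.2 then 0 else -1) else (if b.2 then 1 else 0)) else 0)
    (a b : Fin q × Bool) :
    ⟪J (w (Fin.castLE hqm a.1, a.2)), w (Fin.castLE hqm b.1, b.2)⟫ = if a.1 = b.1 then
      (if a.2 then (if b.2 then 0 else -1) else (if b.2 then 1 else 0)) else 0 := by
  rw [hw]
  simp only [(Fin.castLE_injective hqm).eq_iff]

/-- **The constants are optimal in all degrees and dimensions.** -/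
theorem sharp_all (n p a b : ℕ) (h3 : 3 ≤ n) (hp : 0 < p) (hpn : p < n) (ha : Even a)
    (hap : a ≤ p) (hpa : p ≤ a + 1) (hb : Even b) (hbk : b ≤ n - p) (hkb : n - p ≤ b + 1) :
    ∃ (R : CurvTensor n) (ω : Form n p), 0 < R.scal ∧
      SecGe R ((a : ℝ) * b / (3 * (p * ((n : ℝ) - p)) * ((a : ℝ) + b)
        + (n : ℝ) * ((n : ℝ) - 1) * (a * b)) * R.scal) ∧ ω ≠ 0 ∧ R.weitzForm ω = 0 := by
  have hp' : (0 : ℝ) < p := by exact_mod_cast hp
  have hk' : (0 : ℝ) < (n : ℝ) - p := by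
    have : (p : ℝ) < n := by exact_mod_cast hpn
    linarith
  have hn1 : (0 : ℝ) < (n : ℝ) * ((n : ℝ) - 1) := by
    have : (3 : ℝ) ≤ n := by exact_mod_cast h3
    nlinarith
  have hab : 0 < a + b := by
    rcases ha with ⟨c, rfl⟩
    rcases hb with ⟨d, rfl⟩
    omega
  have hab' : (0 : ℝ) < (a : ℝ) + b := by exact_mod_cast hab
  have haa : (0 : ℝ) ≤ (a : ℝ) := Nat.cast_nonneg a
  have hbb : (0 : ℝ) ≤ (b : ℝ) := Nat.cast_nonneg b
  obtain ⟨q, hq⟩ := ha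
  obtain ⟨r, hr⟩ := hb
  obtain ⟨J, w, hs, hJ, ht, hw, hν⟩ := exists_J n (q + r) (by omega)
  have ht' : ∑ i, ⟪J (J (e i)), (e i : E n)⟫ = -((a : ℝ) + b) := by
    rw [ht, hq, hr]; push_cast; ring
  have hqm : q ≤ q + r := Nat.le_add_right _ _
  have hw' := frame_restrict J hqm w hw
  -- the form
  obtain ⟨ν, hν0, ω, hω0, hω⟩ : ∃ ν : E n, J ν = 0 ∧ ∃ ω : Form n p, ω ≠ 0 ∧
      ∀ (g : E n → E n) (μ : ℝ),
        (∀ z u : E n, ⟪J (g z), u⟫ + ⟪J z, g u⟫ = μ * ⟪J z, u⟫) → (∀ z, ⟪ν, g z⟫ = 0) →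
        ∀ v : Fin p → E n, ∑ b, ω (Function.update v b (g (v b))) = (μ * (q : ℝ)) * ω v := by
    rcases Nat.lt_or_ge a p with h1 | h1
    · obtain ⟨ν, hν1, hν2, hν3⟩ := hν (by omega)
      have hpq : p = 2 * q + 1 := by omega
      subst hpq
      obtain ⟨ω, h1, h2⟩ := exists_form' J q (fun a => w (Fin.castLE hqm a.1, a.2)) hw' ν hν1
        (fun a => hν3 _)
      exact ⟨ν, hν2, ω, h1, h2⟩
    · have hpq : p = 2 * q := by omega
      subst hpq
      obtain ⟨ω, h1, h2⟩ := exists_form J q (fun a => w (Fin.castLE hqm a.1, a.2)) hw'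
      exact ⟨0, map_zero J, ω, h1, fun g μ hg _ => h2 g μ hg⟩
  set K : ℝ := (p : ℝ) * ((n : ℝ) - p) with hK
  have hK0 : 0 < K := mul_pos hp' hk'
  set N : ℝ := (n : ℝ) * ((n : ℝ) - 1) with hN
  have hm0 : (0 : ℝ) ≤ (a : ℝ) * b := mul_nonneg haa hbb
  have hD0 : 0 < 3 * K * ((a : ℝ) + b) + N * (a * b) := by positivity
  set c : ℝ := (a : ℝ) * b / (3 * K) with hc
  have hc0 : 0 ≤ c := by positivity
  refine ⟨RJ c J hs, ω, ?_, ?_, hω0, ?_⟩
  · rw [RJ_scal c J hs _ ht']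
    positivity
  · intro x y hx hy hxy
    rw [RJ_sec c J hs x y hx hy hxy, RJ_scal c J hs _ ht']
    have e1 : (a : ℝ) * b / (3 * K * ((a : ℝ) + b) + N * (a * b)) * (c * N + ((a : ℝ) + b)) = c := by
      have e2 : c * N + ((a : ℝ) + b) = (3 * K * ((a : ℝ) + b) + N * (a * b)) / (3 * K) := by
        rw [hc]
        field_simp
        ring
      rw [e2, hc]
      field_simp
    rw [e1]
    nlinarith [sq_nonneg ⟪J x, y⟫]
  · rw [weitzForm_RJ c J hs hJ _ ht' ν hν0 (q : ℝ) ω hω]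
    have e1 : c * ((n : ℝ) * p - (p : ℝ) ^ 2) = (a : ℝ) * b / 3 := by
      have e2 : (n : ℝ) * p - (p : ℝ) ^ 2 = K := by rw [hK]; ring
      rw [e2, hc]
      field_simp
    have e3 : (a : ℝ) = 2 * q := by rw [hq]; push_cast; ring
    rw [e1, ← e3]
    ring

end Pool.Agent.H91.SX
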