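import Pool.Agent.H91.OE.Gen
import Pool.Agent.H21.OE.Final

set_option autoImplicit false

/-!
# The lower bound and positivity for all degrees, from four inequalities
-/

namespace Pool.Agent.H91.SX

open Pool.Agent.H61.YP Pool.Agent.H8.RG Pool.Agent.H91.OC Pool.Agent.H91.OE
open scoped BigOperators RealInnerProductSpace

variable {n : ℕ}

/-- the dual of the sharp bound -/
def DualB (n q : ℕ) : Prop :=
  ∀ w : Fin n → Fin n → Fin n → Fin n → ℝ, IsCurv w →
    (∀ x v : Fin n → ℝ, 0 ≤ ∑ j, ∑ k, v j * v k * (∑ i, ∑ l, x i * x l * w i j k l)) →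
    ∀ ω : Form n (q + 2), 3 * (((q : ℝ) + 2) * (((q : ℝ) + 1) * QA w ω))
      ≤ ((q : ℝ) + 1) * (scalA w * ip ω ω) + ((q : ℝ) + 2) * ((2 - (q : ℝ)) * rA w ω)

/-- combination of the two families -/
theorem comb (S r X P s t : ℝ) (hP : 0 < P) (hs : 0 < s) (ht : 0 ≤ t)
    (I1 : -(s * (S - P * r)) ≤ 3 * (P * X)) (I2 : -(t * r) ≤ 3 * X) :
    0 ≤ 3 * X + (s * t / (P * (s + t))) * S := by
  have hst : 0 < s + t := by linarith
  have e1 := mul_le_mul_of_nonneg_left I1 ht
  have e2 := mul_le_mul_of_nonneg_left I2 (mul_nonneg hs.le hP.le)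
  have h1 : 0 ≤ (3 * X + (s * t / (P * (s + t))) * S) * (P * (s + t)) := by
    have e3 : (3 * X + (s * t / (P * (s + t))) * S) * (P * (s + t))
        = 3 * X * (P * (s + t)) + s * t * S := by
      field_simp
    rw [e3]
    nlinarith
  exact nonneg_of_mul_nonneg_left h1 (mul_pos hP hst)

theorem key_all {w : Fin n → Fin n → Fin n → Fin n → ℝ} (h : IsCurv w)
    (hpos : ∀ x v : Fin n → ℝ,
      0 ≤ ∑ j, ∑ k, v j * v k * (∑ i, ∑ l, x i * x l * w i j k l))
    (k q a b : ℕ) (hn : n = k + q + 2) (ha : Even a) (hap : a ≤ q + 2)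
    (hpa : q + 2 ≤ a + 1) (hb : Even b) (hbk : b ≤ k) (hkb : k ≤ b + 1)
    (hD : Odd (q + 2) → DualB n q) (ω : Form n (q + 2)) :
    0 ≤ 3 * (rA w ω - ((q : ℝ) + 1) * QA w ω)
      + ((a : ℝ) * b / (((q : ℝ) + 2) * ((a : ℝ) + b))) * (scalA w * ip ω ω) := by
  have hqr : (0 : ℝ) ≤ q := Nat.cast_nonneg q
  have ha0 : 0 < a := by
    rcases ha with ⟨c, rfl⟩
    omega
  have ha0' : (0 : ℝ) < a := by exact_mod_cast ha0
  refine comb (scalA w * ip ω ω) (rA w ω) (rA w ω - ((q : ℝ) + 1) * QA w ω) ((q : ℝ) + 2)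
    (a : ℝ) (b : ℝ) (by linarith) ha0' (Nat.cast_nonneg b) ?_ ?_
  · rcases Nat.lt_or_ge a (q + 2) with h1 | h1
    · have h2 : (a : ℝ) = (q : ℝ) + 1 := by
        have : a = q + 1 := by omega
        rw [this]; push_cast; ring
      have h3 : Odd (q + 2) := by
        have : q + 2 = a + 1 := by omega
        rw [this]
        exact ha.add_one
      have := hD h3 w h hpos ω
      rw [h2]
      linarith
    · have h2 : (a : ℝ) = (q : ℝ) + 2 := by
        have : a = q + 2 := by omega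
        rw [this]; push_cast; ring
      have hA := coreA h hpos ω
      rw [h2]
      have h4 : (0 : ℝ) ≤ (q : ℝ) + 2 := by linarith
      have := mul_le_mul_of_nonneg_left hA h4
      linarith
  · rcases Nat.lt_or_ge b k with h1 | h1
    · have h2 : (b : ℝ) = (k : ℝ) - 1 := by
        have : k = b + 1 := by omega
        rw [this]; push_cast; ring
      have h3 : Odd k := by
        have : k = b + 1 := by omega
        rw [this]
        exact hb.add_one
      have := Pool.Agent.H21.OE.univ_sharp h hpos k q h3 hn ω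
      rw [h2]
      linarith
    · have h2 : (b : ℝ) = (k : ℝ) := by
        have : b = k := by omega
        rw [this]
      have hC := core_gen h hpos ω 0 1 le_rfl zero_le_one (by norm_num)
      have hnr : (n : ℝ) = k + q + 2 := by rw [hn]; push_cast; ring
      rw [hnr] at hC
      rw [h2]
      linarith

/-- degree one -/
theorem lower_deg_one (R : CurvTensor n) (c : ℝ) (hc : SecGe R c) (ω : Form n 1) :
    (((n : ℝ) - 1) * c) * ip ω ω ≤ R.weitzForm ω := by
  have h := R.sec_ext c hc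
  have hpos := R.wA_pos c h
  have hi : ∀ (i : Fin n) (v : Fin n → ℝ), 0 ≤ ∑ j, ∑ k, v j * v k * R.wA c i j k i := by
    intro i v
    have := hpos (fun m => if m = i then 1 else 0) v
    simpa using this
  have hr : 0 ≤ rA (R.wA c) ω := by
    unfold rA ricA
    have : ∀ j k : Fin n, (∑ i, R.wA c i j k i) * MB ω (e j) (e k)
        = ∑ i, ω.curryLeft (e j) ![] * ω.curryLeft (e k) ![] * R.wA c i j k i := by
      intro j k
      rw [MB_apply, CurvTensor.ip_zero_deg, Finset.sum_mul]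
      refine Finset.sum_congr rfl fun i _ => ?_
      ring
    simp_rw [this]
    rw [← comm2 (fun i j k => ω.curryLeft (e j) ![] * ω.curryLeft (e k) ![] * R.wA c i j k i)]
    exact Finset.sum_nonneg fun i _ => hi i (fun j => ω.curryLeft (e j) ![])
  rw [CurvTensor.rA_wA] at hr
  rw [CurvTensor.weitzForm_one]
  linarith

/-- **Lower bound in all degrees.** -/
theorem lower_all (n p a b : ℕ) (hp : 0 < p) (hpn : p < n) (ha : Even a)
    (hap : a ≤ p) (hpa : p ≤ a + 1) (hb : Even b) (hbk : b ≤ n - p) (hkb : n - p ≤ b + 1)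
    (hD : ∀ q : ℕ, p = q + 2 → Odd p → DualB n q)
    (R : CurvTensor n) (c : ℝ) (hc : SecGe R c) (ω : Form n p) :
    ((p : ℝ) * ((n : ℝ) - p) * c
      - ((a : ℝ) * b / (3 * ((a : ℝ) + b))) * (R.scal - (n : ℝ) * ((n : ℝ) - 1) * c)) * ip ω ω
      ≤ R.weitzForm ω := by
  rcases p with _ | _ | q
  · exact absurd hp (lt_irrefl 0)
  · have ha0 : a = 0 := by
      rcases ha with ⟨c, rfl⟩
      omega
    have := lower_deg_one R c hc ω
    rw [ha0]
    refine le_of_eq_of_le ?_ this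
    push_cast
    ring
  · obtain ⟨k, hk⟩ : ∃ k, n = k + q + 2 := ⟨n - (q + 2), by omega⟩
    have hkk : n - (q + 1 + 1) = k := by omega
    rw [hkk] at hbk hkb
    have hkey := fun (w : Fin n → Fin n → Fin n → Fin n → ℝ) (h : IsCurv w)
      (hpos : ∀ x v : Fin n → ℝ,
        0 ≤ ∑ j, ∑ k, v j * v k * (∑ i, ∑ l, x i * x l * w i j k l)) (ω : Form n (q + 2)) =>
      key_all h hpos k q a b hk ha hap hpa hb hbk hkb (fun ho => hD q rfl ho) ω
    have := lower_gen k q hk _ hkey R c hc ω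
    have hqr : (0 : ℝ) ≤ q := Nat.cast_nonneg q
    have ha0 : 0 < a := by
      rcases ha with ⟨c, rfl⟩
      omega
    have ha0' : (0 : ℝ) < a := by exact_mod_cast ha0
    have hb0' : (0 : ℝ) ≤ b := Nat.cast_nonneg b
    have e1 : (k : ℝ) = (n : ℝ) - ((q : ℝ) + 2) := by rw [hk]; push_cast; ring
    rw [e1] at this
    have hab : (a : ℝ) + b ≠ 0 := by positivity
    have hq2 : (q : ℝ) + 2 ≠ 0 := by positivity
    refine le_of_eq_of_le ?_ this
    push_cast
    field_simp
    ring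

/-- the constant of degree `p` -/
theorem pos_all_deg (n p a b : ℕ) (h3 : 3 ≤ n) (hp : 0 < p) (hpn : p < n) (ha : Even a)
    (hap : a ≤ p) (hpa : p ≤ a + 1) (hb : Even b) (hbk : b ≤ n - p) (hkb : n - p ≤ b + 1)
    (hD : ∀ q : ℕ, p = q + 2 → Odd p → DualB n q)
    (R : CurvTensor n)
    (h : SecGt R ((a : ℝ) * b / (3 * (p * ((n : ℝ) - p)) * ((a : ℝ) + b)
      + (n : ℝ) * ((n : ℝ) - 1) * (a * b)) * R.scal))
    (ω : Form n p) (hω : ω ≠ 0) : 0 < R.weitzForm ω := by
  have hn2 : 2 ≤ n := by omega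
  obtain ⟨c, hc, hmin⟩ := R.exists_min hn2 _ h
  have h1 := lower_all n p a b hp hpn ha hap hpa hb hbk hkb hD R c hmin ω
  refine lt_of_lt_of_le ?_ h1
  have h2 := CurvTensor.ip_pos ω hω
  have h4 := scal_ge R c hmin
  have hp' : (0 : ℝ) < p := by exact_mod_cast hp
  have hk' : (0 : ℝ) < (n : ℝ) - p := by
    have : (p : ℝ) < n := by exact_mod_cast hpn
    linarith
  have hn1 : (0 : ℝ) < (n : ℝ) * ((n : ℝ) - 1) := by
    have : (3 : ℝ) ≤ n := by exact_mod_cast h3
    nlinarith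
  have hab : 0 < a + b := by
    rcases ha with ⟨c, rfl⟩
    rcases hb with ⟨d, rfl⟩
    omega
  have hab' : (0 : ℝ) < (a : ℝ) + b := by exact_mod_cast hab
  have haa : (0 : ℝ) ≤ (a : ℝ) := Nat.cast_nonneg a
  have hbb : (0 : ℝ) ≤ (b : ℝ) := Nat.cast_nonneg b
  have hm0 : (0 : ℝ) ≤ (a : ℝ) * b := mul_nonneg haa hbb
  set N : ℝ := (n : ℝ) * ((n : ℝ) - 1) with hN
  set K : ℝ := (p : ℝ) * ((n : ℝ) - p) with hK
  have hK0 : 0 < K := mul_pos hp' hk'
  have hD0 : 0 < 3 * K * ((a : ℝ) + b) + N * (a * b) := by positivity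
  have hc' : (a : ℝ) * b * R.scal < c * (3 * K * ((a : ℝ) + b) + N * (a * b)) := by
    have hc2 : (a : ℝ) * b / (3 * K * ((a : ℝ) + b) + N * (a * b)) * R.scal < c := hc
    rw [div_mul_eq_mul_div, div_lt_iff₀ hD0] at hc2
    exact hc2
  have h6 : 0 < K * c - ((a : ℝ) * b / (3 * ((a : ℝ) + b))) * (R.scal - N * c) := by
    have h7 : 0 < (K * c - ((a : ℝ) * b / (3 * ((a : ℝ) + b))) * (R.scal - N * c))
        * (3 * ((a : ℝ) + b)) := by
      have e3 : (K * c - ((a : ℝ) * b / (3 * ((a : ℝ) + b))) * (R.scal - N * c))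
          * (3 * ((a : ℝ) + b)) = K * c * (3 * ((a : ℝ) + b)) - a * b * (R.scal - N * c) := by
        field_simp
      rw [e3]
      linarith
    exact pos_of_mul_pos_left h7 (by positivity)
  exact mul_pos h6 h2

end Pool.Agent.H91.SX
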