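import Pool.Agent.H8.RG.Conv

set_option autoImplicit false

/-!
# Project SX, piece G: powers of the Kähler form, and their derivations
-/

namespace Pool.Agent.H91.SX

open Pool.Agent.H61.YP Pool.Agent.H8.RG
open scoped BigOperators RealInnerProductSpace

variable {n : ℕ}

/-- the derivation with multiplier `μ` multiplies the product by `μ q` -/
theorem G_m_deriv (J : E n →ₗ[ℝ] E n) (q : ℕ) (g : E n → E n) (μ : ℝ)
    (hg : ∀ z u : E n, ⟪J (g z), u⟫ + ⟪J z, g u⟫ = μ * ⟪J z, u⟫) (v : Fin q × Bool → E n) :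
    ∑ b, Conv_m J q (Function.update v b (g (v b))) = (μ * q) * Conv_m J q v := by
  rw [Fintype.sum_prod_type]
  have h1 : ∀ i : Fin q, ∑ s : Bool, Conv_m J q (Function.update v (i, s) (g (v (i, s)))) =
      μ * Conv_m J q v := by
    intro i
    rw [Fintype.sum_bool, Conv_m_apply, Conv_m_apply, Conv_m_apply, Conv_F_update, Conv_F_update,
      Conv_F_false, Conv_F_true, ← add_mul, add_comm ⟪J (v (i, false)), _⟫, hg,
      ← Finset.mul_prod_erase Finset.univ (fun j => Conv_F J v j) (Finset.mem_univ i), mul_assoc]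
    rfl
  rw [Finset.sum_congr rfl fun i _ => h1 i, Finset.sum_const, Finset.card_univ, Fintype.card_fin,
    nsmul_eq_mul]
  ring

theorem G_alt_deriv (J : E n →ₗ[ℝ] E n) (q : ℕ) (g : E n → E n) (μ : ℝ)
    (hg : ∀ z u : E n, ⟪J (g z), u⟫ + ⟪J z, g u⟫ = μ * ⟪J z, u⟫) (v : Fin q × Bool → E n) :
    ∑ b, Conv_alt J q (Function.update v b (g (v b))) = (μ * q) * Conv_alt J q v := by
  simp_rw [Conv_alt_apply]
  rw [Finset.sum_comm, Finset.mul_sum]
  refine Finset.sum_congr rfl fun σ _ => ?_
  rw [← Finset.mul_sum]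
  have h1 := G_m_deriv J q g μ hg (fun a => v (σ a))
  have h2 : ∑ b, ∏ i, Conv_F J (fun a => Function.update v b (g (v b)) (σ a)) i =
      ∑ b, Conv_m J q (Function.update (fun a => v (σ a)) b (g (v (σ b)))) := by
    rw [← Equiv.sum_comp σ]
    refine Finset.sum_congr rfl fun b _ => ?_
    rw [Conv_m_apply]
    congr 1
    funext i
    congr 1
    funext a
    by_cases hab : a = b
    · subst hab
      rw [Function.update_self, Function.update_self]
    · rw [Function.update_of_ne hab, Function.update_of_ne (fun h => hab (σ.injective h))]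
  rw [h2, h1, Conv_m_apply]
  ring

theorem G_alt_pos (J : E n →ₗ[ℝ] E n) (q : ℕ) (w : Fin q × Bool → E n)
    (val : ∀ a b, ⟪J (w a), w b⟫ = if a.1 = b.1 then
      (if a.2 then (if b.2 then 0 else -1) else (if b.2 then 1 else 0)) else 0) :
    0 < Conv_alt J q w := by
  rw [Conv_alt_apply]
  -- every term is nonnegative
  have hnn : ∀ σ : Equiv.Perm (Fin q × Bool),
      0 ≤ ((Equiv.Perm.sign σ : ℤ) : ℝ) * ∏ i, Conv_F J (fun a => w (σ a)) i := by
    intro σ
    by_cases h0 : ∏ i, Conv_F J (fun a => w (σ a)) i = 0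
    · rw [h0, mul_zero]
    have h1 : ∀ i, Conv_F J (fun a => w (σ a)) i ≠ 0 := fun i h =>
      h0 (Finset.prod_eq_zero (Finset.mem_univ i) h)
    have h2 : ∀ i, (σ (i, false)).1 = (σ (i, true)).1 ∧
        (σ (i, true)).2 = !(σ (i, false)).2 := fun i => by
      have h3 := h1 i
      unfold Conv_F at h3
      rw [val] at h3
      split_ifs at h3 with a1 a2 a3 a4 <;> simp_all
    have h3 : ∀ i, Conv_F J (fun a => w (σ a)) i = if (σ (i, false)).2 then -1 else 1 := fun i => by
      unfold Conv_F
      rw [val, if_pos (h2 i).1, (h2 i).2]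
      cases (σ (i, false)).2 <;> simp
    -- decomposition
    have hτ : Function.Injective (fun i => (σ (i, false)).1) := fun i j hij => by
      dsimp only at hij
      by_cases hb : (σ (i, false)).2 = (σ (j, false)).2
      · exact congrArg Prod.fst (σ.injective (Prod.ext hij hb))
      · have h4 : σ (i, false) = σ (j, true) := by
          refine Prod.ext (hij.trans (h2 j).1) ?_
          rw [(h2 j).2]
          cases h5 : (σ (i, false)).2 <;> cases h6 : (σ (j, false)).2 <;> simp_all
        exact congrArg Prod.fst (σ.injective h4)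
    let T : Equiv.Perm (Fin q) := Equiv.ofBijective _ (Finite.injective_iff_bijective.1 hτ)
    let f : Fin q → Equiv.Perm Bool := fun i => if (σ (i, false)).2 then Equiv.swap false true else 1
    have hσ : σ = (Equiv.prodCongrLeft fun _ : Bool => T) * (Equiv.prodCongrRight f) := by
      refine Equiv.ext ?_
      rintro ⟨i, s⟩
      rw [Equiv.Perm.mul_apply, Equiv.prodCongrRight_apply, Equiv.prodCongrLeft_apply]
      have hT : T i = (σ (i, false)).1 := rfl
      rw [hT]
      cases s
      · refine Prod.ext rfl ?_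
        dsimp only [f]
        cases (σ (i, false)).2 <;> simp
      · refine Prod.ext (h2 i).1.symm ?_
        dsimp only [f]
        rw [(h2 i).2]
        cases (σ (i, false)).2 <;> simp
    have hsign : ((Equiv.Perm.sign σ : ℤ) : ℝ) = ∏ i, if (σ (i, false)).2 then (-1 : ℝ) else 1 := by
      have h4 : Equiv.Perm.sign σ = ∏ i, Equiv.Perm.sign (f i) := by
        conv_lhs => rw [hσ]
        rw [Equiv.Perm.sign_mul, Equiv.Perm.sign_prodCongrLeft, Equiv.Perm.sign_prodCongrRight,
          Fintype.prod_bool]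
        simp
      rw [h4]
      push_cast
      refine Finset.prod_congr rfl fun i _ => ?_
      dsimp only [f]
      split_ifs
      · rw [Equiv.Perm.sign_swap (by decide)]; simp
      · simp
    rw [hsign]
    simp_rw [h3]
    exact mul_self_nonneg _
  refine lt_of_lt_of_le ?_ (Finset.single_le_sum (fun σ _ => hnn σ) (Finset.mem_univ 1))
  rw [Equiv.Perm.sign_one]
  have h1 : ∀ i, Conv_F J (fun a => w ((1 : Equiv.Perm (Fin q × Bool)) a)) i = 1 := fun i => by
    change ⟪J (w (i, false)), w (i, true)⟫ = 1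
    rw [val]
    simp
  rw [Finset.prod_congr rfl fun i _ => h1 i]
  simp

/-- Piece G: powers of the Kähler form, and their derivations -/
theorem exists_form (J : E n →ₗ[ℝ] E n) (q : ℕ) (w : Fin q × Bool → E n)
    (hw : ∀ a b, ⟪J (w a), w b⟫ = if a.1 = b.1 then
      (if a.2 then (if b.2 then 0 else -1) else (if b.2 then 1 else 0)) else 0) :
    ∃ ω : Form n (2 * q), ω ≠ 0 ∧ ∀ (g : E n → E n) (μ : ℝ),
      (∀ z u : E n, ⟪J (g z), u⟫ + ⟪J z, g u⟫ = μ * ⟪J z, u⟫) →
      ∀ v : Fin (2 * q) → E n,
        ∑ b, ω (Function.update v b (g (v b))) = (μ * q) * ω v := by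
  let eqv : Fin q × Bool ≃ Fin (2 * q) :=
    (Fintype.equivFinOfCardEq (by
      rw [Fintype.card_prod, Fintype.card_fin, Fintype.card_bool]; ring))
  let ω : Form n (2 * q) := (Conv_alt J q).domDomCongr eqv
  have hω : ∀ v, ω v = Conv_alt J q (fun a => v (eqv a)) := fun v => rfl
  refine ⟨ω, ?_, fun g μ hg v => ?_⟩
  · have hv := G_alt_pos J q w hw
    intro h0
    have h1 : ω (fun a => w (eqv.symm a)) = 0 := by rw [h0]; rfl
    rw [hω] at h1
    simp only [Equiv.symm_apply_apply] at h1
    linarith
  · rw [← Equiv.sum_comp eqv]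
    have h1 := G_alt_deriv J q g μ hg (fun a => v (eqv a))
    rw [hω v, ← h1]
    refine Finset.sum_congr rfl fun b _ => ?_
    rw [hω]
    congr 1
    funext a
    by_cases hab : a = b
    · subst hab
      rw [Function.update_self, Function.update_self]
    · rw [Function.update_of_ne hab, Function.update_of_ne (fun h => hab (eqv.injective h))]

end Pool.Agent.H91.SX
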